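import Pool.Agent.helper93.ADV.SpecU

/-!
Row MJR of project adv: the majority of `T` available functions.
-/

set_option autoImplicit false

namespace Pool.Agent.ADV

open Finset Pool.Agent.helper38.Neg Pool.Agent.helper55.NT Pool.Agent.LNB

variable {n T : ℕ}

/-- number of the ones among the first `i` functions -/
def MJR_cnt (g : Fin T → Fn n) (i : ℕ) (x : Fin n → Bool) : ℕ :=
  (univ.filter fun l : Fin T => l.val < i ∧ g l x = true).card

theorem MJR_cnt_zero (g : Fin T → Fn n) (x : Fin n → Bool) : MJR_cnt g 0 x = 0 := by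
  simp [MJR_cnt]

theorem MJR_cnt_le (g : Fin T → Fn n) (i : ℕ) (x : Fin n → Bool) : MJR_cnt g i x ≤ T := by
  unfold MJR_cnt
  exact (Finset.card_le_univ _).trans (by simp)

theorem MJR_cnt_succ (g : Fin T → Fn n) (i : Fin T) (x : Fin n → Bool) :
    MJR_cnt g (i + 1) x = MJR_cnt g i x + if g i x = true then 1 else 0 := by
  unfold MJR_cnt
  split_ifs with h
  · have h1 : (univ.filter fun l : Fin T => l.val < i + 1 ∧ g l x = true) =
        insert i (univ.filter fun l : Fin T => l.val < i ∧ g l x = true) := by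
      ext l
      simp only [Finset.mem_filter, Finset.mem_univ, true_and, Finset.mem_insert]
      constructor
      · rintro ⟨h1, h2⟩
        by_cases hl : l = i
        · exact Or.inl hl
        · refine Or.inr ⟨?_, h2⟩
          have : l.val ≠ i.val := fun h => hl (Fin.ext h)
          omega
      · rintro (rfl | ⟨h1, h2⟩)
        · exact ⟨by omega, h⟩
        · exact ⟨by omega, h2⟩
    rw [h1, Finset.card_insert_of_notMem]
    simp
  · rw [add_zero]
    congr 1
    ext l
    simp only [Finset.mem_filter, Finset.mem_univ, true_and]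
    constructor
    · rintro ⟨h1, h2⟩
      refine ⟨?_, h2⟩
      have : l.val ≠ i.val := fun h' => h (by rwa [← Fin.ext h'])
      omega
    · rintro ⟨h1, h2⟩
      exact ⟨by omega, h2⟩

/-- thresholds of the first `i` functions -/
def MJR_thr (g : Fin T → Fn n) (i j : ℕ) : Fn n := fun x => decide (j ≤ MJR_cnt g i x)

theorem MJR_thr_big (g : Fin T → Fn n) (i j : ℕ) (hj : T + 1 ≤ j) : MJR_thr g i j = fun _ => false := by
  funext x
  have := MJR_cnt_le g i x
  simp [MJR_thr]
  omega

theorem MJR_base (g : Fin T → Fn n) : Rel (Set.range g) 2 0 (Set.range (MJR_thr g 0)) := by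
  refine ((Rel.const (Set.range g) true).union (Rel.const (Set.range g) false)).mono le_rfl ?_ le_rfl le_rfl
  rintro f ⟨j, rfl⟩
  rcases Nat.eq_zero_or_pos j with rfl | hj
  · refine Or.inl ?_
    rw [Set.mem_singleton_iff]
    funext x
    simp [MJR_thr]
  · refine Or.inr ?_
    rw [Set.mem_singleton_iff]
    funext x
    simp [MJR_thr, MJR_cnt_zero]
    omega

theorem MJR_step (g : Fin T → Fn n) (i : Fin T) :
    Rel (Set.range g ∪ Set.range (MJR_thr g i)) ((T + 2) * 2) 0 (Set.range (MJR_thr g (i + 1))) := by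
  have key : ∀ j ∈ Finset.range (T + 2),
      Rel (Set.range g ∪ Set.range (MJR_thr g i)) 2 0 {MJR_thr g (i + 1) j} := by
    intro j _
    rcases j with _ | j
    · refine (Rel.sub ?_).mono le_rfl subset_rfl (by omega) le_rfl
      rintro f rfl
      refine Or.inr ⟨0, ?_⟩
      funext x
      simp [MJR_thr]
    · have h2 : Rel (Set.range g ∪ Set.range (MJR_thr g i)) 1 0
          {fun x => g i x && MJR_thr g i j x} :=
        Rel.and (u := g i) (v := MJR_thr g i j) (Or.inl ⟨i, rfl⟩) (Or.inr ⟨j, rfl⟩)
      have h4 : Rel ((Set.range g ∪ Set.range (MJR_thr g i)) ∪ {fun x => g i x && MJR_thr g i j x}) 1 0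
          {fun x => MJR_thr g i (j + 1) x || (g i x && MJR_thr g i j x)} :=
        Rel.or (u := MJR_thr g i (j + 1)) (v := fun x => g i x && MJR_thr g i j x)
          (Or.inl (Or.inr ⟨j + 1, rfl⟩)) (Or.inr rfl)
      have h5 := h2.trans' h4
      refine h5.mono le_rfl ?_ le_rfl le_rfl
      rintro f rfl
      rw [Set.mem_singleton_iff]
      funext x
      simp only [MJR_thr, MJR_cnt_succ]
      cases hx : g i x
      · simp
      · simp only [if_true, Bool.true_and]
        rw [Bool.eq_iff_iff]
        simp only [decide_eq_true_eq, Bool.or_eq_true]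
        omega
  refine (Rel.biUnion (Finset.range (T + 2)) (fun j => {MJR_thr g (i + 1) j}) key).mono le_rfl ?_ ?_ le_rfl
  · rintro f ⟨j, rfl⟩
    by_cases hj : j < T + 2
    · simp only [Set.mem_iUnion]
      exact ⟨j, Finset.mem_range.2 hj, rfl⟩
    · simp only [Set.mem_iUnion]
      refine ⟨T + 1, Finset.mem_range.2 (by omega), ?_⟩
      rw [Set.mem_singleton_iff, MJR_thr_big g _ j (by omega), MJR_thr_big g _ (T + 1) le_rfl]
  · rw [Finset.card_range]

theorem MJR_rel (g : Fin T → Fn n) (i : ℕ) (hi : i ≤ T) :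
    Rel (Set.range g) (2 + i * ((T + 2) * 2)) 0 (Set.range (MJR_thr g i)) := by
  induction i with
  | zero => exact (MJR_base g).mono le_rfl subset_rfl (by omega) le_rfl
  | succ i ih =>
    have h1 := ih (by omega)
    have h2 := MJR_step g ⟨i, by omega⟩
    refine (h1.trans' h2).mono le_rfl subset_rfl (le_of_eq (by ring)) le_rfl

/-- Row MJR. -/
theorem MJR : MJR_stmt := by
  intro n T g
  refine (MJR_rel g T le_rfl).mono le_rfl ?_ ?_ le_rfl
  · rintro f rfl
    refine ⟨T / 2 + 1, ?_⟩
    funext x
    have h1 : MJR_cnt g T x = (univ.filter fun i => g i x = true).card := by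
      unfold MJR_cnt
      congr 1
      ext l
      simp
    simp only [MJR_thr, h1]
    rw [decide_eq_decide]
    omega
  · nlinarith

end Pool.Agent.ADV
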